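import Pool.Agent.W314.BA.Stm

/-! MP_f2742c_an, part TA: the kernel bound with quadratic tail. -/

open MeasureTheory Set Filter Topology Real
open scoped ENNReal NNReal

namespace Pool.Agent.W935.BA

open Pool.Agent.W314.BA

noncomputable section

variable {Y : Type} [MeasurableSpace Y] [MulAction G Y] {μ : Measure Y} {c : G → Y → ℤ}

lemma c_meas_g (hS : Sys μ c) (y : Y) : Measurable (fun g => c g y) :=
  hS.c_meas.comp measurable_prodMk_right

lemma lint_c (hS : Sys μ c) (ν : Measure G) (y : Y) (F : ℤ → ℝ≥0∞) :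
    ∫⁻ g, F (c g y) ∂ν = ∑' n, F n * ν {g | c g y = n} := by
  rw [← lintegral_map (f := F) (g := fun g => c g y) (measurable_of_countable F)
    (c_meas_g hS y), lintegral_countable']
  refine tsum_congr fun n => ?_
  rw [Measure.map_apply (c_meas_g hS y) (measurableSet_singleton n)]
  rfl

lemma meas_K (hS : Sys μ c) (x : ℝ) (n : ℤ) : Measurable (fun y => bm x {g | c g y = n}) :=
  measurable_measure_prodMk_right (μ := bm x) (s := {p : G × Y | c p.1 p.2 = n})
    (hS.c_meas (measurableSet_singleton n))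

lemma log_ge {x : ℝ} (hx : 2 ≤ x) : 1 / 2 ≤ Real.log x := by
  have h1 := Real.log_two_gt_d9
  have h2 := Real.log_le_log (by norm_num) hx
  linarith

lemma log_four_mul {x : ℝ} (hx : 2 ≤ x) :
    Real.log x ≤ Real.log (4 * x) ∧ Real.log (4 * x) ≤ 3 * Real.log x := by
  have h1 : Real.log 4 = 2 * Real.log 2 := by
    rw [show (4 : ℝ) = 2 ^ 2 by norm_num, Real.log_pow]; norm_num
  have h2 := Real.log_le_log (by norm_num) hx
  have h3 := Real.log_two_gt_d9
  rw [Real.log_mul (by norm_num) (by linarith), h1]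
  constructor <;> linarith

lemma log_four_sqrt {x : ℝ} (hx : 2 ≤ x) :
    2 ≤ 4 * √x ∧ Real.log x / 2 ≤ Real.log (4 * √x) ∧ Real.log (4 * √x) ≤ 5 / 2 * Real.log x := by
  have h1 : Real.log 4 = 2 * Real.log 2 := by
    rw [show (4 : ℝ) = 2 ^ 2 by norm_num, Real.log_pow]; norm_num
  have h2 := Real.log_le_log (by norm_num) hx
  have h3 := Real.log_two_gt_d9
  have h4 : 1 ≤ √x := Real.one_le_sqrt.2 (by linarith)
  refine ⟨by linarith, ?_⟩
  rw [Real.log_mul (by norm_num) (by linarith), h1, Real.log_sqrt (by linarith)]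
  constructor <;> linarith

/-- the second moment -/
lemma moment (h3 : Grow1Stmt) (h4 : Grow2Stmt) (hS : Sys μ c) :
    ∃ A : ℝ, 0 ≤ A ∧ ∀ x : ℝ, 2 ≤ x →
      ∑' n : ℤ, ENNReal.ofReal ((n : ℝ) ^ 2) * Kn μ c x n ≤ ENNReal.ofReal (A * Real.log x) := by
  have := hS.prob
  obtain ⟨Ψ, C3, hΨ, hc⟩ := h3 Y μ c hS
  obtain ⟨C4, hC4⟩ := h4 Ψ hΨ
  have hA : ∀ x : ℝ, 2 ≤ x → ∀ g ∈ Bx x,
      ∫ y, (c g y : ℝ) ^ 2 ∂μ ≤ (6 * |C4| + 2 * |C3|) * Real.log x := by
    intro x hx g hg
    have hg' : hh g ≤ x := hg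
    have e1 := hc g
    have e2 := hC4 (hh g) (one_le_hh g)
    have e3 : Real.log (hh g) ≤ Real.log x :=
      Real.log_le_log (by linarith [one_le_hh g]) hg'
    have e4 := log_ge hx
    have e5 : 0 ≤ Real.log (hh g) := Real.log_nonneg (one_le_hh g)
    have e6 : C4 * (1 + Real.log (hh g)) ≤ |C4| * (3 * Real.log x) :=
      mul_le_mul (le_abs_self _) (by linarith) (by linarith) (abs_nonneg _)
    have e7 : C3 ≤ |C3| * (2 * Real.log x) := by
      calc C3 ≤ |C3| := le_abs_self _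
        _ = |C3| * 1 := (mul_one _).symm
        _ ≤ _ := mul_le_mul_of_nonneg_left (by linarith) (abs_nonneg _)
    nlinarith
  refine ⟨6 * |C4| + 2 * |C3|, by positivity, fun x hx => ?_⟩
  have := bm_prob (x := x) (by linarith)
  have hsq : Measurable (fun p : G × Y => ENNReal.ofReal ((c p.1 p.2 : ℝ) ^ 2)) := by
    have hm : Measurable (fun n : ℤ => ENNReal.ofReal ((n : ℝ) ^ 2)) := measurable_of_countable _
    exact hm.comp hS.c_meas
  have e1 : ∑' n : ℤ, ENNReal.ofReal ((n : ℝ) ^ 2) * Kn μ c x n =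
      ∫⁻ y, ∫⁻ g, ENNReal.ofReal ((c g y : ℝ) ^ 2) ∂(bm x) ∂μ := by
    have : ∀ n : ℤ, ENNReal.ofReal ((n : ℝ) ^ 2) * Kn μ c x n =
        ∫⁻ y, ENNReal.ofReal ((n : ℝ) ^ 2) * bm x {g | c g y = n} ∂μ := by
      intro n
      rw [lintegral_const_mul _ (meas_K hS x n)]
      rfl
    simp_rw [this]
    rw [← lintegral_tsum fun n => ((meas_K hS x n).const_mul _).aemeasurable]
    refine lintegral_congr fun y => ?_
    rw [lint_c hS (bm x) y (fun n => ENNReal.ofReal ((n : ℝ) ^ 2))]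
  rw [e1, lintegral_lintegral_swap]
  · have hae : ∀ᵐ g ∂(bm x), g ∈ Bx x := by
      unfold bm
      exact Measure.ae_smul_measure (ae_restrict_mem (Bx_meas x)) _
    calc ∫⁻ g, ∫⁻ y, ENNReal.ofReal ((c g y : ℝ) ^ 2) ∂μ ∂(bm x)
        ≤ ∫⁻ _g, ENNReal.ofReal ((6 * |C4| + 2 * |C3|) * Real.log x) ∂(bm x) := by
          refine lintegral_mono_ae ?_
          filter_upwards [hae] with g hg
          have hcm : Measurable (fun y => c g y) := hS.c_meas.comp measurable_prodMk_left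
          have hcm2 : Measurable (fun y => (c g y : ℝ) ^ 2) := by
            have hm : Measurable (fun n : ℤ => ((n : ℝ) ^ 2)) := measurable_of_countable _
            exact hm.comp hcm
          obtain ⟨B, hB⟩ := hS.bdd x
          have hint : Integrable (fun y => (c g y : ℝ) ^ 2) μ := by
            refine Integrable.of_bound hcm2.aestronglyMeasurable ((B : ℝ) ^ 2)
              (Eventually.of_forall fun y => ?_)
            rw [Real.norm_of_nonneg (by positivity)]
            have h1 : |(c g y : ℝ)| ≤ (B : ℝ) := by exact_mod_cast hB g hg y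
            calc (c g y : ℝ) ^ 2 = |(c g y : ℝ)| ^ 2 := (sq_abs _).symm
              _ ≤ (B : ℝ) ^ 2 := pow_le_pow_left₀ (abs_nonneg _) h1 2
          rw [← ofReal_integral_eq_lintegral_ofReal hint
            (Eventually.of_forall fun y => by positivity)]
          exact ENNReal.ofReal_le_ofReal (hA x hx g hg)
      _ = ENNReal.ofReal ((6 * |C4| + 2 * |C3|) * Real.log x) := by
          rw [lintegral_const, measure_univ, mul_one]
  · exact (hsq.comp measurable_swap).aemeasurable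

/-- Chebyshev -/
lemma tailK {A x : ℝ} (hx : ∑' n : ℤ, ENNReal.ofReal ((n : ℝ) ^ 2) * Kn μ c x n ≤
    ENNReal.ofReal (A * Real.log x)) {M : ℝ} (hM : 0 < M) :
    ∑' n : ℤ, (if M ≤ |(n : ℝ)| then Kn μ c x n else 0) ≤
      ENNReal.ofReal (A * Real.log x / M ^ 2) := by
  rw [ENNReal.ofReal_div_of_pos (by positivity), ENNReal.le_div_iff_mul_le
    (Or.inl (by simp; positivity)) (Or.inl ENNReal.ofReal_ne_top), mul_comm, ← ENNReal.tsum_mul_left]
  refine le_trans (ENNReal.tsum_le_tsum fun n => ?_) hx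
  split_ifs with h
  · gcongr ENNReal.ofReal ?_ * _
    calc M ^ 2 ≤ |(n : ℝ)| ^ 2 := pow_le_pow_left₀ hM.le h 2
      _ = (n : ℝ) ^ 2 := sq_abs _
  · simp

/-- the convolution inequality -/
lemma conv {C : ℝ≥0∞} {x : ℝ} (hx : ∀ φ : G → ℝ≥0∞, Measurable φ →
    ∫⁻ g, φ g ∂(bm x) ≤ C * ∫⁻ h, ∫⁻ g, φ (g * h) ∂(bm (4 * √x)) ∂(bm (4 * √x)))
    (hS : Sys μ c) (n : ℤ) :
    Kn μ c x n ≤ C * ∑' m : ℤ, Sn c (4 * √x) (n - m) * Kn μ c (4 * √x) m := by
  have h1 : ∀ y, bm x {g | c g y = n} ≤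
      C * ∑' m : ℤ, Sn c (4 * √x) (n - m) * bm (4 * √x) {h | c h y = m} := by
    intro y
    have hset : MeasurableSet {g | c g y = n} := c_meas_g hS y (measurableSet_singleton n)
    rw [← lintegral_indicator_one hset]
    refine (hx _ (measurable_one.indicator hset)).trans ?_
    rw [← lint_c hS (bm (4 * √x)) y (fun m => Sn c (4 * √x) (n - m))]
    gcongr with h
    have hset2 : MeasurableSet {g | c g (h • y) = n - c h y} :=
      c_meas_g hS (h • y) (measurableSet_singleton _)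
    calc ∫⁻ g, {g | c g y = n}.indicator 1 (g * h) ∂(bm (4 * √x))
        = ∫⁻ g, {g | c g (h • y) = n - c h y}.indicator 1 g ∂(bm (4 * √x)) := by
          refine lintegral_congr fun g => ?_
          have : (g * h ∈ {g | c g y = n}) ↔ g ∈ {g | c g (h • y) = n - c h y} := by
            show c (g * h) y = n ↔ c g (h • y) = n - c h y
            rw [hS.coc]
            constructor <;> intro h' <;> omega
          by_cases hg : g ∈ {g | c g (h • y) = n - c h y}
          · rw [indicator_of_mem hg, indicator_of_mem (this.2 hg)]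
            rfl
          · rw [indicator_of_notMem hg, indicator_of_notMem (fun h' => hg (this.1 h'))]
      _ = bm (4 * √x) {g | c g (h • y) = n - c h y} := lintegral_indicator_one hset2
      _ ≤ Sn c (4 * √x) (n - c h y) :=
          le_iSup (fun z : Y => bm (4 * √x) {g | c g z = n - c h y}) (h • y)
  calc Kn μ c x n ≤ ∫⁻ y, C * ∑' m : ℤ, Sn c (4 * √x) (n - m) * bm (4 * √x) {h | c h y = m} ∂μ :=
        lintegral_mono h1
    _ = C * ∫⁻ y, ∑' m : ℤ, Sn c (4 * √x) (n - m) * bm (4 * √x) {h | c h y = m} ∂μ := by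
        rw [lintegral_const_mul]
        exact Measurable.tsum fun m => (meas_K hS (4 * √x) m).const_mul _
    _ = C * ∑' m : ℤ, Sn c (4 * √x) (n - m) * Kn μ c (4 * √x) m := by
        rw [lintegral_tsum fun m => ((meas_K hS (4 * √x) m).const_mul _).aemeasurable]
        congr 1
        refine tsum_congr fun m => ?_
        rw [lintegral_const_mul _ (meas_K hS (4 * √x) m)]
        rfl

/-- tails of `Sn` -/
lemma tailS {C2 : ℝ≥0∞} {J : ℕ} {A x : ℝ}
    (hS2 : ∀ n : ℤ, Sn c x n ≤ C2 * ∑ j ∈ Finset.Icc (-(J : ℤ)) J, Kn μ c (4 * x) (n - j))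
    (hx : ∑' n : ℤ, ENNReal.ofReal ((n : ℝ) ^ 2) * Kn μ c (4 * x) n ≤
      ENNReal.ofReal (A * Real.log (4 * x))) {M : ℝ} (hM : (J : ℝ) < M) :
    ∑' n : ℤ, (if M ≤ |(n : ℝ)| then Sn c x n else 0) ≤
      C2 * ((2 * J + 1 : ℕ) * ENNReal.ofReal (A * Real.log (4 * x) / (M - J) ^ 2)) := by
  have h1 : ∀ n : ℤ, (if M ≤ |(n : ℝ)| then Sn c x n else 0) ≤
      C2 * ∑ j ∈ Finset.Icc (-(J : ℤ)) J,
        (if M - J ≤ |((n - j : ℤ) : ℝ)| then Kn μ c (4 * x) (n - j) else 0) := by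
    intro n
    split_ifs with h
    · refine (hS2 n).trans ?_
      gcongr with j hj
      rw [if_pos]
      rw [Finset.mem_Icc] at hj
      have h2 : |(j : ℝ)| ≤ J := by
        rw [abs_le]
        exact ⟨by exact_mod_cast hj.1, by exact_mod_cast hj.2⟩
      have h3 := abs_sub_abs_le_abs_sub (n : ℝ) (j : ℝ)
      push_cast
      linarith
    · exact zero_le
  refine (ENNReal.tsum_le_tsum h1).trans ?_
  rw [ENNReal.tsum_mul_left]
  gcongr
  rw [Summable.tsum_finsetSum (fun _ _ => ENNReal.summable)]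
  calc ∑ j ∈ Finset.Icc (-(J : ℤ)) J,
        ∑' n : ℤ, (if M - J ≤ |((n - j : ℤ) : ℝ)| then Kn μ c (4 * x) (n - j) else 0)
      ≤ ∑ j ∈ Finset.Icc (-(J : ℤ)) J, ENNReal.ofReal (A * Real.log (4 * x) / (M - J) ^ 2) := by
        refine Finset.sum_le_sum fun j _ => ?_
        have h4 := (Equiv.subRight j).tsum_eq
          (fun m : ℤ => if M - J ≤ |(m : ℝ)| then Kn μ c (4 * x) m else 0)
        simp only [Equiv.subRight_apply] at h4
        rw [h4]
        exact tailK hx (by linarith)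
    _ = (2 * J + 1 : ℕ) * ENNReal.ofReal (A * Real.log (4 * x) / (M - J) ^ 2) := by
        rw [Finset.sum_const, Int.card_Icc, nsmul_eq_mul]
        congr 2
        congr 1
        omega

lemma kn_eq {x : ℝ} (hx : 2 ≤ x) (n : ℤ) :
    kn x n = ENNReal.ofReal (√(Real.log x) / (Real.log x + (n : ℝ) ^ 2)) := by
  unfold kn
  congr 1
  have hL := log_ge hx
  have h1 : 0 < √(Real.log x) := Real.sqrt_pos.2 (by linarith)
  have h2 : Real.log x = √(Real.log x) ^ 2 := (Real.sq_sqrt (by linarith)).symm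
  have h3 : 0 < Real.log x + (n : ℝ) ^ 2 := by positivity
  rw [inv_eq_one_div, div_eq_div_iff (by positivity) h3.ne']
  have h4 : √(Real.log x) * (√(Real.log x) * (1 + (n : ℝ) ^ 2 / Real.log x)) =
      Real.log x * (1 + (n : ℝ) ^ 2 / Real.log x) := by
    rw [← mul_assoc, ← sq, ← h2]
  rw [h4]
  field_simp

/-- real estimate for the far region -/
lemma far_real {A B L L4 E n J : ℝ} (hA : 0 ≤ A) (hB : 0 ≤ B) (hL : 0 < L) (hL4 : L4 ≤ 3 * L)
    (hJ : 0 ≤ J) (hn : 4 * (J + 1) ≤ |n|) {R : ℝ} (hR : 0 ≤ R) (hRB : R ≤ B) (hE : √L ≤ 2 * E)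
    : B / √L * (A * L / (|n| / 2) ^ 2) + R * (A * L4 / (|n| / 2 - J) ^ 2) / √L ≤
      104 * A * B * E / n ^ 2 := by
  have hs : 0 < √L := Real.sqrt_pos.2 hL
  have hn0 : 0 < |n| := by linarith
  have hn2 : 0 < n ^ 2 := by rw [← sq_abs]; positivity
  have h1 : n ^ 2 / 16 ≤ (|n| / 2 - J) ^ 2 := by
    have : |n| / 4 ≤ |n| / 2 - J := by linarith
    calc n ^ 2 / 16 = (|n| / 4) ^ 2 := by rw [div_pow, sq_abs]; norm_num
      _ ≤ _ := pow_le_pow_left₀ (by positivity) this 2
  have h2 : A * L4 / (|n| / 2 - J) ^ 2 ≤ A * (3 * L) / (n ^ 2 / 16) := by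
    apply div_le_div₀ (by positivity) (mul_le_mul_of_nonneg_left hL4 hA) (by positivity) h1
  have h2' : R * (A * L4 / (|n| / 2 - J) ^ 2) ≤ B * (A * (3 * L) / (n ^ 2 / 16)) := by
    refine (mul_le_mul_of_nonneg_left h2 hR).trans (mul_le_mul_of_nonneg_right hRB (by positivity))
  have h3 : R * (A * L4 / (|n| / 2 - J) ^ 2) / √L ≤ B * (A * (3 * L) / (n ^ 2 / 16)) / √L :=
    div_le_div_of_nonneg_right h2' hs.le
  have h4 : B / √L * (A * L / (|n| / 2) ^ 2) + B * (A * (3 * L) / (n ^ 2 / 16)) / √L =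
      52 * A * B * √L / n ^ 2 := by
    have h5 : (|n| / 2) ^ 2 = n ^ 2 / 4 := by rw [div_pow, sq_abs]; norm_num
    rw [h5]
    calc B / √L * (A * L / (n ^ 2 / 4)) + B * (A * (3 * L) / (n ^ 2 / 16)) / √L
        = 52 * A * B * (L / √L) / n ^ 2 := by
          field_simp
          ring
      _ = _ := by rw [Real.div_sqrt]
  calc _ ≤ B / √L * (A * L / (|n| / 2) ^ 2) + B * (A * (3 * L) / (n ^ 2 / 16)) / √L := by
        linarith
    _ = 52 * A * B * √L / n ^ 2 := h4
    _ ≤ 52 * A * B * (2 * E) / n ^ 2 := by gcongr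
    _ = _ := by ring

/-- comparison of the kernels -/
lemma ker_real {L n D C1 E N0 : ℝ} (hL : 1 / 2 ≤ L) (hC : 0 ≤ C1) (hE : 0 ≤ E) (hN0 : 0 < N0)
    (hD : 2 * C1 + 2 * E + C1 * (1 + 2 * N0 ^ 2) ≤ D) {K : ℝ} (h1 : K ≤ C1 / √L)
    (h2 : N0 ≤ |n| → K ≤ E * √L / n ^ 2) : K ≤ D * (√L / (L + n ^ 2)) := by
  have hs : 0 < √L := Real.sqrt_pos.2 (by linarith)
  have hL0 : 0 < L := by linarith
  have hLn : 0 < L + n ^ 2 := by positivity
  have h3 : C1 / √L = C1 * √L / L := by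
    rw [div_eq_div_iff hs.ne' (by linarith), mul_assoc, Real.mul_self_sqrt (by linarith)]
  rw [h3] at h1
  have hq : 0 ≤ √L / (L + n ^ 2) := by positivity
  rcases le_or_gt N0 |n| with h | h
  · have hn0 : 0 < |n| := by linarith
    have hn2 : 0 < n ^ 2 := by rw [← sq_abs]; positivity
    rcases le_or_gt L (n ^ 2) with h4 | h4
    · refine (h2 h).trans ?_
      calc E * √L / n ^ 2 ≤ E * √L / ((L + n ^ 2) / 2) := by
            apply div_le_div_of_nonneg_left (by positivity) (by positivity) (by linarith)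
        _ = 2 * E * (√L / (L + n ^ 2)) := by field_simp
        _ ≤ D * (√L / (L + n ^ 2)) := mul_le_mul_of_nonneg_right (by nlinarith) hq
    · refine h1.trans ?_
      calc C1 * √L / L ≤ C1 * √L / ((L + n ^ 2) / 2) := by
            apply div_le_div_of_nonneg_left (by positivity) (by positivity) (by linarith)
        _ = 2 * C1 * (√L / (L + n ^ 2)) := by field_simp
        _ ≤ D * (√L / (L + n ^ 2)) := mul_le_mul_of_nonneg_right (by nlinarith) hq
  · refine h1.trans ?_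
    have h5 : n ^ 2 ≤ N0 ^ 2 := by rw [← sq_abs]; exact pow_le_pow_left₀ (abs_nonneg _) h.le 2
    have h6 : L + n ^ 2 ≤ (1 + 2 * N0 ^ 2) * L := by nlinarith
    calc C1 * √L / L ≤ C1 * √L / ((L + n ^ 2) / (1 + 2 * N0 ^ 2)) := by
          apply div_le_div_of_nonneg_left (by positivity) (by positivity)
          rw [div_le_iff₀ (by positivity)]
          linarith
      _ = C1 * (1 + 2 * N0 ^ 2) * (√L / (L + n ^ 2)) := by field_simp
      _ ≤ D * (√L / (L + n ^ 2)) := mul_le_mul_of_nonneg_right (by nlinarith) hq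

lemma shift_real {L L4 n j J : ℝ} (hL : 1 / 2 ≤ L) (h1 : L ≤ L4) (h2 : L4 ≤ 3 * L) (hj : |j| ≤ J) :
    √L4 / (L4 + (n - j) ^ 2) ≤ 2 * (3 + 4 * J ^ 2) * (√L / (L + n ^ 2)) := by
  have hs : √L4 ≤ 2 * √L := by
    rw [show (2 : ℝ) * √L = √(4 * L) by
      rw [Real.sqrt_mul (by norm_num), show (4 : ℝ) = 2 ^ 2 by norm_num,
        Real.sqrt_sq (by norm_num)]]
    exact Real.sqrt_le_sqrt (by linarith)
  have hj2 : j ^ 2 ≤ J ^ 2 := by rw [← sq_abs]; exact pow_le_pow_left₀ (abs_nonneg _) hj 2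
  have h3 : L + n ^ 2 ≤ (3 + 4 * J ^ 2) * (L4 + (n - j) ^ 2) := by
    have e1 : n ^ 2 ≤ 2 * (n - j) ^ 2 + 2 * j ^ 2 := by nlinarith [sq_nonneg (n - 2 * j)]
    have e2 : 0 ≤ J ^ 2 * (n - j) ^ 2 := by positivity
    have e3 : J ^ 2 ≤ 2 * (J ^ 2 * L4) := by nlinarith [sq_nonneg J]
    nlinarith [sq_nonneg (n - j)]
  have hL0 : 0 < L := by linarith
  have hLn : 0 < L + n ^ 2 := by positivity
  have hLn' : 0 < L4 + (n - j) ^ 2 := by nlinarith [sq_nonneg (n - j)]
  rw [div_le_iff₀ hLn']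
  calc √L4 ≤ 2 * √L := hs
    _ = 2 * √L / (L + n ^ 2) * (L + n ^ 2) := by field_simp
    _ ≤ 2 * √L / (L + n ^ 2) * ((3 + 4 * J ^ 2) * (L4 + (n - j) ^ 2)) :=
        mul_le_mul_of_nonneg_left h3 (by positivity)
    _ = _ := by ring

theorem main (h1 : LLTStmt) (h2 : SupStmt) (h3 : Grow1Stmt) (h4 : Grow2Stmt)
    (h5 : DomSplitStmt) : TailStmt := by
  intro Y _ _ μ c hS
  obtain ⟨C1', hC1'⟩ := h1 Y μ c hS
  obtain ⟨C2, J, hC2t, hC2⟩ := h2 Y μ c hS
  obtain ⟨A, hA, hmom⟩ := moment h3 h4 hS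
  obtain ⟨C6, hC6t, hC6⟩ := h5
  set C1 : ℝ := max C1' 0 with hC1def
  have hC1 : 0 ≤ C1 := le_max_right _ _
  have hK : ∀ x : ℝ, 2 ≤ x → ∀ n : ℤ, Kn μ c x n ≤ ENNReal.ofReal (C1 / √(Real.log x)) := by
    intro x hx n
    refine (hC1' x hx n).trans (ENNReal.ofReal_le_ofReal ?_)
    exact div_le_div_of_nonneg_right (le_max_left _ _) (Real.sqrt_nonneg _)
  obtain ⟨a2, ha2, rfl⟩ : ∃ a : ℝ, 0 ≤ a ∧ C2 = ENNReal.ofReal a :=
    ⟨C2.toReal, ENNReal.toReal_nonneg, (ENNReal.ofReal_toReal hC2t).symm⟩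
  obtain ⟨a6, ha6, rfl⟩ : ∃ a : ℝ, 0 ≤ a ∧ C6 = ENNReal.ofReal a :=
    ⟨C6.toReal, ENNReal.toReal_nonneg, (ENNReal.ofReal_toReal hC6t).symm⟩
  have hN : ((2 * J + 1 : ℕ) : ℝ≥0∞) = ENNReal.ofReal (2 * J + 1) := by
    rw [← ENNReal.ofReal_natCast]
    push_cast
    rfl
  set B : ℝ := a2 * ((2 * J + 1) * C1) with hB
  have hB0 : 0 ≤ B := by positivity
  -- supremum of `Sn`
  have hSn : ∀ x : ℝ, 2 ≤ x → ∀ n : ℤ, Sn c x n ≤ ENNReal.ofReal (B / √(Real.log x)) := by
    intro x hx n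
    have hl := log_four_mul hx
    have hL := log_ge hx
    refine (hC2 x hx n).trans ?_
    calc ENNReal.ofReal a2 * ∑ j ∈ Finset.Icc (-(J : ℤ)) J, Kn μ c (4 * x) (n - j)
        ≤ ENNReal.ofReal a2 * ∑ j ∈ Finset.Icc (-(J : ℤ)) J,
            ENNReal.ofReal (C1 / √(Real.log x)) := by
          gcongr with j hj
          refine (hK (4 * x) (by linarith) _).trans (ENNReal.ofReal_le_ofReal ?_)
          apply div_le_div_of_nonneg_left hC1 (Real.sqrt_pos.2 (by linarith))
          exact Real.sqrt_le_sqrt hl.1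
      _ = ENNReal.ofReal (B / √(Real.log x)) := by
          rw [Finset.sum_const, Int.card_Icc, nsmul_eq_mul,
            show ((J : ℤ) + 1 - -(J : ℤ)).toNat = 2 * J + 1 by omega, hN,
            ← ENNReal.ofReal_mul (by positivity), ← ENNReal.ofReal_mul ha2]
          congr 1
          rw [hB]
          ring
  -- far region
  set E : ℝ := a6 * (104 * A * B) with hEdef
  have hE0 : 0 ≤ E := by positivity
  have hfar : ∀ x : ℝ, 2 ≤ x → ∀ n : ℤ, 4 * ((J : ℝ) + 1) ≤ |(n : ℝ)| →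
      Kn μ c x n ≤ ENNReal.ofReal (E * √(Real.log x) / (n : ℝ) ^ 2) := by
    intro x hx n hn
    obtain ⟨hx', hl1, hl2⟩ := log_four_sqrt hx
    set x' := 4 * √x with hx'def
    have hL := log_ge hx
    have hL' := log_ge hx'
    have hl4 := log_four_mul hx'
    have hs : 0 < √(Real.log x') := Real.sqrt_pos.2 (by linarith)
    refine (conv (hC6 x hx) hS n).trans ?_
    have hterm : ∀ m : ℤ, Sn c x' (n - m) * Kn μ c x' m ≤
        ENNReal.ofReal (B / √(Real.log x')) *
          (if |(n : ℝ)| / 2 ≤ |(m : ℝ)| then Kn μ c x' m else 0) +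
        ENNReal.ofReal (C1 / √(Real.log x')) *
          (if |(n : ℝ)| / 2 ≤ |((n - m : ℤ) : ℝ)| then Sn c x' (n - m) else 0) := by
      intro m
      rcases le_or_gt (|(n : ℝ)| / 2) |(m : ℝ)| with h | h
      · rw [if_pos h]
        exact le_add_right (mul_le_mul_left (hSn x' hx' _) _)
      · have h' : |(n : ℝ)| / 2 ≤ |((n - m : ℤ) : ℝ)| := by
          have := abs_sub_abs_le_abs_sub (n : ℝ) (m : ℝ)
          push_cast
          linarith
        rw [if_pos h']
        refine le_add_left ?_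
        rw [mul_comm]
        exact mul_le_mul_left (hK x' hx' _) _
    have hsum : ∑' m : ℤ, Sn c x' (n - m) * Kn μ c x' m ≤
        ENNReal.ofReal (104 * A * B * √(Real.log x) / (n : ℝ) ^ 2) := by
      refine (ENNReal.tsum_le_tsum hterm).trans ?_
      rw [ENNReal.tsum_add, ENNReal.tsum_mul_left, ENNReal.tsum_mul_left]
      have e1 := tailK (hmom x' hx') (M := |(n : ℝ)| / 2) (by linarith)
      have e2 := tailS (hC2 x' hx') (hmom (4 * x') (by linarith)) (M := |(n : ℝ)| / 2)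
        (by linarith)
      have e3 := (Equiv.subLeft n).tsum_eq
        (fun k : ℤ => if |(n : ℝ)| / 2 ≤ |(k : ℝ)| then Sn c x' k else 0)
      simp only [Equiv.subLeft_apply] at e3
      rw [e3]
      refine (add_le_add (mul_le_mul_right e1 _) (mul_le_mul_right e2 _)).trans ?_
      have hJ0 : (0 : ℝ) ≤ J := Nat.cast_nonneg J
      have hl4' : 0 ≤ Real.log (4 * x') := by linarith
      rw [hN, ← ENNReal.ofReal_mul (by positivity), ← ENNReal.ofReal_mul (by positivity),
        ← ENNReal.ofReal_mul (by positivity), ← ENNReal.ofReal_mul (by positivity),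
        ← ENNReal.ofReal_add (by positivity) (by positivity)]
      apply ENNReal.ofReal_le_ofReal
      have hE2 : √(Real.log x') ≤ 2 * √(Real.log x) := by
        rw [show (2 : ℝ) * √(Real.log x) = √(4 * Real.log x) by
          rw [Real.sqrt_mul (by norm_num), show (4 : ℝ) = 2 ^ 2 by norm_num,
            Real.sqrt_sq (by norm_num)]]
        exact Real.sqrt_le_sqrt (by linarith)
      have := far_real (n := (n : ℝ)) hA hB0 (by linarith : 0 < Real.log x') hl4.2 hJ0 hn
        (R := B) hB0 le_rfl hE2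
      refine le_trans (le_of_eq ?_) this
      rw [hB]
      ring
    calc ENNReal.ofReal a6 * ∑' m : ℤ, Sn c x' (n - m) * Kn μ c x' m
        ≤ ENNReal.ofReal a6 * ENNReal.ofReal (104 * A * B * √(Real.log x) / (n : ℝ) ^ 2) := by
          gcongr
      _ = _ := by
          rw [← ENNReal.ofReal_mul ha6]
          congr 1
          rw [hEdef]
          ring
  -- all `n`
  set D : ℝ := 2 * C1 + 2 * E + C1 * (1 + 2 * (4 * ((J : ℝ) + 1)) ^ 2) with hD
  have hD0 : 0 ≤ D := by positivity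
  have hKn : ∀ x : ℝ, 2 ≤ x → ∀ n : ℤ, Kn μ c x n ≤
      ENNReal.ofReal (D * (√(Real.log x) / (Real.log x + (n : ℝ) ^ 2))) := by
    intro x hx n
    have hL := log_ge hx
    have hfin : Kn μ c x n ≠ ⊤ := ((hK x hx n).trans_lt ENNReal.ofReal_lt_top).ne
    rw [← ENNReal.ofReal_toReal hfin]
    apply ENNReal.ofReal_le_ofReal
    refine ker_real hL hC1 hE0 (by positivity) hD.ge ?_ ?_
    · exact ENNReal.toReal_le_of_le_ofReal (by positivity) (hK x hx n)
    · intro hn
      exact ENNReal.toReal_le_of_le_ofReal (by positivity) (hfar x hx n hn)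
  -- conclusion
  refine ⟨ENNReal.ofReal a2 * (ENNReal.ofReal (2 * J + 1) *
    ENNReal.ofReal (D * (2 * (3 + 4 * (J : ℝ) ^ 2)))), ?_, fun x hx n => ?_⟩
  · exact ENNReal.mul_ne_top ENNReal.ofReal_ne_top
      (ENNReal.mul_ne_top ENNReal.ofReal_ne_top ENNReal.ofReal_ne_top)
  · have hl := log_four_mul hx
    have hL := log_ge hx
    rw [kn_eq hx]
    refine (hC2 x hx n).trans ?_
    calc ENNReal.ofReal a2 * ∑ j ∈ Finset.Icc (-(J : ℤ)) J, Kn μ c (4 * x) (n - j)
        ≤ ENNReal.ofReal a2 * ∑ j ∈ Finset.Icc (-(J : ℤ)) J,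
            ENNReal.ofReal (D * (2 * (3 + 4 * (J : ℝ) ^ 2)) *
              (√(Real.log x) / (Real.log x + (n : ℝ) ^ 2))) := by
          gcongr with j hj
          refine (hKn (4 * x) (by linarith) _).trans (ENNReal.ofReal_le_ofReal ?_)
          rw [Finset.mem_Icc] at hj
          have h2 : |(j : ℝ)| ≤ J := by
            rw [abs_le]
            exact ⟨by exact_mod_cast hj.1, by exact_mod_cast hj.2⟩
          have := shift_real (n := (n : ℝ)) hL hl.1 hl.2 h2
          push_cast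
          calc _ ≤ D * (2 * (3 + 4 * (J : ℝ) ^ 2) * (√(Real.log x) / (Real.log x + (n : ℝ) ^ 2))) :=
                mul_le_mul_of_nonneg_left this hD0
            _ = _ := by ring
      _ = _ := by
          rw [Finset.sum_const, Int.card_Icc, nsmul_eq_mul,
            show ((J : ℤ) + 1 - -(J : ℤ)).toNat = 2 * J + 1 by omega, hN,
            ENNReal.ofReal_mul (p := D * (2 * (3 + 4 * (J : ℝ) ^ 2))) (by positivity)]
          ring

end

end Pool.Agent.W935.BA
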